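import Mathlib
import Pool.Agent.Helper27_UBT.Stmts
import Pool.Agent.Helper58_UB.QDed

set_option autoImplicit false

/-!
# Points of hyperelliptic curves and their classes in the Jacobian
-/

namespace Pool.Agent.MNT

open Polynomial

theorem pt_ne_bot {K : Type} [Field K] (f : K[X]) (x y : K) :
    (Ideal.span {(⟨X - C x, 0⟩ : H58Q.Q K f), ⟨-C y, 1⟩} : Ideal (H58Q.Q K f)) ≠ ⊥ := by
  intro h
  have h1 : (⟨X - C x, 0⟩ : H58Q.Q K f) ∈
      (Ideal.span {(⟨X - C x, 0⟩ : H58Q.Q K f), ⟨-C y, 1⟩} : Ideal (H58Q.Q K f)) :=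
    Ideal.subset_span (by simp)
  rw [h, Ideal.mem_bot] at h1
  have h2 := congrArg QuadraticAlgebra.re h1
  exact X_sub_C_ne_zero x h2

theorem isDed {K : Type} [Field K] [CharZero K] (C : UBT.OddCurve K) :
    IsDedekindDomain (H58Q.Q K C.f) := by
  obtain ⟨g, hg⟩ := C.odd
  exact H58Q.isDedekind hg C.sqfree two_ne_zero

/-- The element `u + w Y` of the coordinate ring `K[X, Y] / (Y² - f)`. -/
def elt {K : Type} [Field K] (f u w : K[X]) : H58Q.Q K f := ⟨u, w⟩

/-- The ideal `(X - x, Y - y)` of the coordinate ring `K[X, Y] / (Y² - f)`. -/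
noncomputable def ptIdeal {K : Type} [Field K] (f : K[X]) (x y : K) : Ideal (H58Q.Q K f) :=
  Ideal.span {elt f (X - Polynomial.C x) 0, elt f (-Polynomial.C y) 1}

theorem ptIdeal_ne {K : Type} [Field K] (f : K[X]) (x y : K) : ptIdeal f x y ≠ ⊥ :=
  pt_ne_bot f x y

/-- A nonzero ideal as an element of the submonoid of nonzero divisors. -/
def nzIdeal (R : Type) [CommRing R] [IsDedekindDomain R] (I : Ideal R) (h : I ≠ ⊥) :
    nonZeroDivisors (Ideal R) := ⟨I, mem_nonZeroDivisors_iff_ne_zero.2 h⟩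

/-- The value of a homomorphism. -/
def ap {M N : Type} [MulOneClass M] [MulOneClass N] (φ : M →* N) (m : M) : N := φ m

/-- The class of a nonzero ideal in the class group. -/
noncomputable def idealClass (R : Type) [CommRing R] [IsDedekindDomain R]
    (I : nonZeroDivisors (Ideal R)) : ClassGroup R := ap ClassGroup.mk0 I

/-- For a point `P = (x, y)` of the curve `C : Y² = f(X)`, `f` squarefree of odd degree, the class of
the ideal `(X - x, Y - y)` in the class group of `K[X, Y] / (Y² - f)`, i.e. the class of `P - ∞`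
in the group `J(K)` of the Jacobian. -/
noncomputable def cls {K : Type} [Field K] [CharZero K] (C : UBT.OddCurve K) (x y : K) : C.Jac :=
  @idealClass (H58Q.Q K C.f) _ (isDed C)
    (@nzIdeal (H58Q.Q K C.f) _ (isDed C) (ptIdeal C.f x y) (ptIdeal_ne C.f x y))

theorem cls_eq {K : Type} [Field K] [CharZero K] (C : UBT.OddCurve K) (x y : K) :
    cls C x y =
      (have := isDed C
      ClassGroup.mk0 ⟨Ideal.span {(⟨X - Polynomial.C x, 0⟩ : H58Q.Q K C.f), ⟨-Polynomial.C y, 1⟩},
        mem_nonZeroDivisors_iff_ne_zero.2 (pt_ne_bot C.f x y)⟩) :=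
  rfl

/-- The `(x i, y i)` are `4 g + 8` points of `C : Y² = f(X)`, `deg f = 2 g + 1`, with distinct
abscissae, not Weierstrass points, and torsion in the Jacobian (base point `∞`). -/
structure ManyTorsion (g : ℕ) {K : Type} [Field K] [CharZero K] (C : UBT.OddCurve K)
    (x y : Fin (4 * g + 8) → K) : Prop where
  deg : C.f.natDegree = 2 * g + 1
  inj : Function.Injective x
  on : ∀ i, y i ^ 2 = C.f.eval (x i)
  ne : ∀ i, y i ≠ 0
  tor : ∀ i, IsOfFinOrder (cls C (x i) (y i))

end Pool.Agent.MNT
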