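import Pool.Agent.MNT.StmtsG
import Pool.Agent.MNT.Point

set_option autoImplicit false

/-!
# MNT: the classes of points and the ideals `ptI`
-/

namespace Pool.Agent.MNT

open Polynomial NumberField

theorem cls_pow {K : Type} [Field K] [CharZero K] (C : UBT.OddCurve K) (x y : K) (N : ℕ) :
    cls C x y ^ N = 1 ↔ ((ptI C.f x y) ^ N).IsPrincipal := by
  have := isDed C
  rw [cls_eq, ← map_pow, ClassGroup.mk0_eq_one_iff (SetLike.coe_mem _)]
  rfl

theorem tor_iff {K : Type} [Field K] [CharZero K] (C : UBT.OddCurve K) (x y : K) :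
    IsOfFinOrder (cls C x y) ↔ ∃ N, TorB C.f x y N := by
  rw [isOfFinOrder_iff_pow_eq_one]
  constructor
  · rintro ⟨n, hn, h⟩
    exact ⟨n, hn, (cls_pow C x y n).1 h⟩
  · rintro ⟨n, hn, h⟩
    exact ⟨n, hn, (cls_pow C x y n).2 h⟩

theorem order_le {K : Type} [Field K] [CharZero K] (C : UBT.OddCurve K) (x y : K) (N : ℕ)
    (h : TorB C.f x y N) : orderOf (cls C x y) ≤ N :=
  orderOf_le_of_pow_eq_one h.1 ((cls_pow C x y N).2 h.2)

end Pool.Agent.MNT
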