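import Pool.Agent.MNT.StmtsT

set_option autoImplicit false

/-!
# MNT, block A: the local inequality
-/

namespace Pool.Agent.MNT

open Polynomial NumberField
open scoped Classical

/-- A1G (copy of `Helper36_BHT/A1.lean`, 100 lines of changes). On every circle in an odd annulus
some point satisfies `|U| ≤ |G|`. PROOF. Otherwise `|U| > |G|` on the circle. There
`q = (U - G)/(U + G)` has positive real part: the real part of `(U - G) conj (U + G)` is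
`|U|² - |G|²`. So `q` has a continuous periodic square root (`SQ.slit`), hence so has
`U² - G² = q (U + G)² = f w²`, hence `f` (`w ≠ 0` on the circle because `f w² = U² - G² ≠ 0`),
contradiction as in `a1`. -/
def A1gStmt : Prop := ∀ (U G f w : ℂ[X]), U ^ 2 - G ^ 2 = f * w ^ 2 →
    ∀ (ζ : ℂ) (ρ₁ ρ₂ : ℝ), 0 ≤ ρ₁ → ρ₁ < ρ₂ → Odd (BHT.cnt norm f ζ ρ₁) →
    (∀ α ∈ f.roots, ‖α - ζ‖ ≤ ρ₁ ∨ ρ₂ ≤ ‖α - ζ‖) →
    ∀ ρ ∈ Set.Ioo ρ₁ ρ₂, ∃ x : ℂ, ‖x - ζ‖ = ρ ∧ ‖U.eval x‖ ≤ ‖G.eval x‖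

/-- ODA (120 lines; uses A1G and `BHT.A2Stmt` (proved: `BHT.a2` in `Helper75_BHT/A2.lean`)).
The inequality at an odd annulus of ratio 2, archimedean case.
PROOF. `t_k = ‖ζ_k - ζ‖` for the roots `ζ_k` of `U` (`N` of them), `B = max r ‖x - ζ‖`. By A1G with
`G = C c * (X - C x) ^ N`, for all `ρ ∈ (r/2, r)` there is `x_ρ` on the circle with
`|U(x_ρ)| ≤ |c| |x_ρ - x|^N ≤ |c| (2 B)^N`. Far roots (`t_k ≥ 2 r`): `|x_ρ - ζ_k| ≥ t_k - ρ ≥ t_k/2`.
Apply A2 on `(r/2, r)` to `T = K₀ ∏_{t_k < 2r} (X - ζ_k)`,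
`K₀ = |lead U| ∏_{far} (t_k/2) / (|c| (2B)^N)` (a positive real number): `|T(x_ρ)| ≤ 1`, so
`K₀ (r/32)^{N'} ≤ 1`. As `|lead U| = |c|`, `r/32 ≥ max(r, t_k)/64` for the near roots and
`t_k/2 ≥ max(r, t_k)/64` for the far ones: `∏ max(r, t_k) ≤ 64^N (2B)^N`. Take logarithms. -/
def OdaStmt : Prop := ∀ (F : ℂ[X]) (x : ℂ) (N : ℕ) (U W : ℂ[X]) (c : ℂ), F ≠ 0 →
    IsSol F x N U W c → ∀ (ζ : ℂ) (r : ℝ), 0 < r → Odd (BHT.cnt norm F ζ (r / 2)) →
    (∀ α ∈ F.roots, ‖α - ζ‖ ≤ r / 2 ∨ r ≤ ‖α - ζ‖) → Harm vC U.roots x ζ r (Real.log 128)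

/-- ODN (STRONG, 200 lines, mostly copied from `Helper36_BHT/N1.lean`). Nonarchimedean case, every
radius `δ` with an odd number of roots of `F` in the closed disc.
PROOF. Let `Tp = taylor ζ p`; for split `p` the Gauss norm of `Tp` with radius `δ` is
`|lead p| ∏ max(δ, |ζ - α|)` over the roots (`Dom.mul`, `Dom.lin`, `Dom.C` with explicit `s`:
`s = δ` if `|b| ≤ δ`, else `|b|`, i.e. `max δ |b|`). Suppose the Gauss norm `s` of `TU` is larger than
the one of `TG`, `G = C c * (X - C x) ^ N`. Then `(TU)² - (TG)²` has the same dominant index `2n` and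
norm `s²` as `(TU)²` (coefficientwise: the coefficients of `(TG)²` have norm `< s²`), but
`(TF) (TW)²` has dominant index odd + even (`W ≠ 0`, otherwise `U² = G²` and the norms agree):
contradiction with `Dom.unique`. So `|lead U| ∏ max(δ, |ζ_k - ζ|) ≤ |c| max(δ, |x - ζ|)^N`, and
`|lead U| = |c|`, `U.roots` has `N` elements; take logarithms. -/
def OdnStmt : Prop := ∀ (E : Type) [Field E] (v : AbsoluteValue E ℝ), IsNonarchimedean v →
    ∀ (F : E[X]) (x : E) (N : ℕ) (U W : E[X]) (c : E), F ≠ 0 → F.Splits → U.Splits →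
    IsSol F x N U W c → ∀ (ζ : E) (δ : ℝ), 0 < δ → Odd (BHT.cnt v F ζ δ) → Harm v U.roots x ζ δ 0

/-- THN (80 lines). A thin odd subset. PROOF by strong induction on `S.card`. Take `p ∈ S`
(odd, so nonempty). If all `q ∈ S` satisfy `‖z q - z p‖ ≤ δ/2` take `S' = S`, `r = δ`. Otherwise let
`q* ∈ S` have distance `> δ/2`, `η = δ/(2 #S)`. The `#S` half-open annuli
`A_j = {q ∈ S : j η ≤ ‖z q - z p‖ < (j+1) η}`, `0 ≤ j < #S`, are disjoint and do not contain `q*`, so one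
of them is empty, `j ≥ 1` because `p ∈ A_0`. `S_in = {‖z q - z p‖ < j η} ∋ p`,
`S_out = {‖z q - z p‖ ≥ (j+1) η} ∋ q*` partition `S`, their distance is `≥ η`, one of them is odd:
apply the induction hypothesis to it with `η` (`η ≥ δ/(4 n)`, `η ≤ δ`). -/
def ThnStmt : Prop := ∀ (P : Type) [Fintype P] [DecidableEq P] (z : P → ℂ) (R S : Finset P) (δ : ℝ),
    S ⊆ R → Odd S.card → 0 < δ → (∀ p ∈ S, ∀ q ∈ R \ S, δ ≤ ‖z q - z p‖) →
    ∃ S' ⊆ S, ∃ p ∈ S', ∃ r : ℝ, δ / (4 * (Fintype.card P : ℝ)) ^ S.card ≤ r ∧ r ≤ δ ∧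
      Odd S'.card ∧ (∀ q ∈ S', ‖z q - z p‖ ≤ r / 2) ∧ ∀ q ∈ R \ S', r ≤ ‖z q - z p‖

/-- OTA (100 lines; uses THN, ODA). The inequality at every grounded cluster, archimedean case.
PROOF. `ρ = exp (-lev c)`. `S = {p}` in the first case of `Grd`, `S = s ∩ R` in the second one.
If `p ∈ S`, `q ∈ R \ S` then every cluster `d` containing `p` and `q` contains `c` (first case:
definition; second case: `d` and `s` are nested, `q ∉ s`, so `s ⊂ d`, `c ⊆ d`), so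
`lev {p,q} ≤ lev c` (the sums differ by clusters `≠ univ`, with positive lengths) and
`‖z p - z q‖ ≥ exp (-lev {p,q} - M) ≥ ρ e^{-M}`. THN with `δ = ρ e^{-M}` (`0 ≤ M` if there are two
points) gives `S'`, `p'`, `r` with `ρ e^{-M} / (4 n)^n ≤ r ≤ ρ`; `S'` is the set of all
`q ∈ R` with `‖z q - z p'‖ ≤ r/2`, so `cnt norm (FF e R z) (z p') (r/2) = #S'` is odd (the roots of
`FF e R z` are `R.val.map z`). ODA at radius `r`; replace `r` by `ρ ≥ r`:
`log max(ρ, t) ≤ log max(r, t) + log (ρ/r)`, and the right hand side increases.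
`e₂ = log 128 + |M| + n log (4 n)`; if `n = 0` nothing to prove. -/
def OtaStmt : Prop := ∀ (n : ℕ) (M : ℝ), ∃ e₂ : ℝ, 0 ≤ e₂ ∧ ∀ (P : Type) [Fintype P]
    [DecidableEq P], Fintype.card P ≤ n → ∀ (R : Finset P) (z : P → ℂ), Function.Injective z →
    ∀ Λ : Lam P, Λ.Rep (dis vC z) M → ∀ e : ℂ, e ≠ 0 → ∀ c ∈ Λ.V, Λ.Grd R c →
    ∃ p ∈ c, ∀ (x : ℂ) (N : ℕ) (U W : ℂ[X]) (c' : ℂ), IsSol (FF e R z) x N U W c' →
      Harm vC U.roots x (z p) (Real.exp (-Λ.lev c)) e₂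

/-- OTN (100 lines; uses ODN). The same for nonarchimedean absolute values, without error.
PROOF. `ρ = exp (-lev c)`, `S` as in OTA, `p ∈ S`. For `q ∈ R \ S`: `|z q - z p| ≥ ρ` as in OTA. For
`q ∈ S`, `q ≠ p` (second case): all clusters containing `c` and also `s` contain `{p, q}`, so
`lev {p,q} ≥ lev c + l s > lev c` and `|z q - z p| < ρ`. Let `δ₀ < ρ` be positive and `≥` all these
`|z q - z p|`. For `δ ∈ [δ₀, ρ)` the number of roots of `FF e R z` in the closed disc is `#S`, odd, so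
ODN gives `Harm` with radius `δ`, error `0` (`FF e R z` splits and is nonzero). Let `δ → ρ`:
both sides are continuous in `δ > 0`. -/
def OtnStmt : Prop := ∀ (E : Type) [Field E] (v : AbsoluteValue E ℝ), IsNonarchimedean v →
    ∀ (P : Type) [Fintype P] [DecidableEq P] (R : Finset P) (z : P → E), Function.Injective z →
    ∀ Λ : Lam P, Λ.Rep (dis v z) 0 → ∀ e : E, e ≠ 0 → ∀ c ∈ Λ.V, Λ.Grd R c →
    ∃ p ∈ c, ∀ (x : E) (N : ℕ) (U W : E[X]) (c' : E), IsSol (FF e R z) x N U W c' → U.Splits →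
      Harm v U.roots x (z p) (Real.exp (-Λ.lev c)) 0

/-- FRO (80 lines). A minimiser of a quadratic form on the simplex. PROOF. `stdSimplex ℝ J` is compact
and nonempty, `q(μ) = ∑ μ_j μ_k E_jk` is continuous: minimiser `μ`. For a vertex `j` and `t ∈ [0,1]`:
`q((1-t) μ + t δ_j) ≥ q(μ)`; expand:
`(1-t)² q(μ) + 2t(1-t) (Eμ)_j + t² E_jj ≥ q(μ)`, divide by `t`, `t → 0`: `(Eμ)_j ≥ q(μ)`. As
`∑ μ_j ((Eμ)_j - q(μ)) = 0`, every term vanishes: `(Eμ)_j = q(μ)` if `μ_j ≠ 0`. -/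
def FroStmt : Prop := ∀ (J : Type) [Fintype J] [Nonempty J] (E : J → J → ℝ),
    (∀ j k, E j k = E k j) → ∃ μ : J → ℝ, (∀ j, 0 ≤ μ j) ∧ ∑ j, μ j = 1 ∧
      (∀ ν : J → ℝ, (∀ j, 0 ≤ ν j) → ∑ j, ν j = 1 →
        ∑ j, ∑ k, μ j * μ k * E j k ≤ ∑ j, ∑ k, ν j * ν k * E j k) ∧
      ∀ j, μ j ≠ 0 → ∑ k, μ k * E j k ≤ ∑ i, ∑ k, μ i * μ k * E i k

/-- VBD (STRONG, 120 lines; uses FRO). Potential theory in one page.
PROOF. `A_j(t) = max (r j) (v (t - p j))`, `K(j,k) = log A_j(x) + log A_k(x) - log max(r_j, r_k,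
|p_j - p_k|)`. By FRO we may replace `μ` by the minimiser (call it `μ` again; `J` is nonempty because
`∑ μ = 1`). (i) `max(r_j, r_k, |p_j - p_k|) |ζ - x| ≤ exp c₀ max (A_j(ζ) A_k(x)) (A_j(x) A_k(ζ))`:
for `|p_j - p_k|` from `(p_j - p_k)(ζ - x) = (p_j - x)(ζ - p_k) - (p_j - ζ)(x - p_k)`; for `r_j` from
`|ζ - x| ≤ exp c₀ max(|ζ - p_k|, |x - p_k|)`, `r_j ≤ A_j(x), A_j(ζ)`; same for `r_k`. (ii) For `ζ ≠ x`
choose `j` with `μ_j ≠ 0` minimising `A_j(ζ)/A_j(x)`. Then for all `k` with `μ_k ≠ 0` the maximum in (i)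
is `A_j(x) A_k(ζ)`, so `log |ζ - x| ≤ c₀ + log A_j(x) + log A_k(ζ) - log max(r_j, r_k, |p_j - p_k|)
= c₀ + K(j,k) + log A_k(ζ) - log A_k(x)`. Multiply by `μ_k` and sum over `k`, use
`∑_k μ_k K(j,k) ≤ K(μ,μ)`: `log |ζ - x| ≤ c₀ + K(μ,μ) + ∑_k μ_k (log A_k(ζ) - log A_k(x))`.
(iii) Sum over `ζ ∈ Z` and use `Harm`: `∑_ζ log A_k(ζ) ≤ #Z (log A_k(x) + e)`. -/
def VbdStmt : Prop := ∀ (E : Type) [Field E] (v : AbsoluteValue E ℝ) (c₀ : ℝ), QU v c₀ →
    ∀ (J : Type) [Fintype J] (p : J → E) (r : J → ℝ), (∀ j, 0 < r j) → ∀ (x : E) (Z : Multiset E),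
    x ∉ Z → ∀ e : ℝ, (∀ j, Harm v Z x (p j) (r j) e) → ∀ μ : J → ℝ, (∀ j, 0 ≤ μ j) →
    ∑ j, μ j = 1 →
    (Z.map fun ζ => Real.log (v (x - ζ))).sum ≤ (Multiset.card Z : ℝ) * (e + c₀ +
      ∑ j, ∑ k, μ j * μ k * (Real.log (max (r j) (v (x - p j))) +
        Real.log (max (r k) (v (x - p k))) -
        Real.log (max (max (r j) (r k)) (v (p j - p k)))))

/-- VLM (120 lines; uses VBD). The bound in terms of the laminar family.
PROOF. VBD with `J = {c // c ∈ Λ.V ∧ Λ.Grd R c}`, centres `z p_c`, `r c = exp (-lev c)`. The bracket of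
VBD for `c, d` is at most `lev (c ∪ d) - lev (insert x c) - lev (insert x d) + 3 e₁`:
(F1) `-log max(r_c, r_d, |z p_c - z p_d|) ≤ lev (c ∪ d) + e₁`: if `c ⊆ d`, `lev (c ∪ d) = lev d =
-log r_d` (same for `d ⊆ c`); if disjoint, `p_c ≠ p_d` and the clusters containing `p_c` and `p_d` are
exactly those containing `c ∪ d` (nested with `c` and with `d`), use `Rep`.
(F2) `log max(r_c, |z x - z p_c|) ≤ -lev (insert x c) + e₁`: `lev (insert x c) ≤ lev c` (positive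
lengths), and if `x ≠ p_c`: `lev (insert x c) ≤ lev {x, p_c}` because `{x, p_c} ⊆ insert x c`; if
`x = p_c` the second argument of the maximum is `0`. `μ` vanishes outside `J`, so the sums over `Λ.V`
are sums over `J`; `0 ≤ e₁` because `P` has two elements. -/
def VlmStmt : Prop := ∀ (E : Type) [Field E] (v : AbsoluteValue E ℝ) (c₀ : ℝ), QU v c₀ →
    ∀ (P : Type) [Fintype P] [DecidableEq P] (R : Finset P) (z : P → E), Function.Injective z →
    ∀ (Λ : Lam P) (e₁ : ℝ), Λ.Rep (dis v z) e₁ → ∀ (x : P) (Z : Multiset E), z x ∉ Z → ∀ e₂ : ℝ,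
    (∀ c ∈ Λ.V, Λ.Grd R c → ∃ p ∈ c, Harm v Z (z x) (z p) (Real.exp (-Λ.lev c)) e₂) →
    ∀ μ : Finset P → ℝ, Λ.Prob R μ →
    (Z.map fun ζ => Real.log (v (z x - ζ))).sum ≤
      (Multiset.card Z : ℝ) * (e₂ + c₀ + 3 * e₁ + Λ.En μ x)

/-- CHN (100 lines). From an approximate to an exact ultrametric (`δ = -log distance`).
PROOF. For real `t` let `G_t` be the graph `p ~ q :↔ p ≠ q ∧ t ≤ δ p q`, and for `p ≠ q` let
`δ' p q` be the largest value `t` of `δ` (finite set) such that `p`, `q` are connected in `G_t`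
(`t = δ p q` is possible, so `δ p q ≤ δ' p q`). Symmetric and ultrametric because connectedness is an
equivalence relation, decreasing in `t`. If `p ≠ q` are joined by a path of length `k ≥ 1` in `G_t`
then `t - (k - 1) c₀ ≤ δ p q` by induction on the path `p, u, ..., q`:
`δ p q ≥ min (δ p u) (δ u q) - c₀` (`p, u, q` distinct because it is a path). `k < card P`. -/
def ChnStmt : Prop := ∀ (P : Type) [Fintype P] [DecidableEq P] (δ : P → P → ℝ) (c₀ : ℝ), 0 ≤ c₀ →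
    (∀ p q, δ p q = δ q p) →
    (∀ p q r, p ≠ q → q ≠ r → p ≠ r → min (δ p q) (δ q r) - c₀ ≤ δ p r) →
    ∃ δ' : P → P → ℝ, (∀ p q, δ' p q = δ' q p) ∧
      (∀ p q r, p ≠ q → q ≠ r → p ≠ r → min (δ' p q) (δ' q r) ≤ δ' p r) ∧
      ∀ p q, p ≠ q → δ p q ≤ δ' p q ∧ δ' p q ≤ δ p q + (Fintype.card P : ℝ) * c₀

/-- ULT (STRONG, 200 lines). An exact ultrametric is given by a laminar family.
PROOF. Prove for every `S : Finset P` with `2 ≤ S.card`, by strong induction on the cardinality: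
there are a finite set `V` of subsets of `S` of cardinality `≥ 2`, laminar, `S ∈ V`, and
`l : Finset P → ℝ` with `0 < l c` for `c ∈ V`, `c ≠ S`, `l S = min of δ on S`, and
`δ p q = ∑_{d ∈ V, {p,q} ⊆ d} l d` for `p ≠ q` in `S`. Let `h = min δ` over pairs of distinct elements
of `S`. `p ~ q :↔ p = q ∨ h < δ p q` is an equivalence relation on `S` (ultrametric inequality), with
at least two classes (a pair with `δ = h`). For every class `s` with `2 ≤ s.card` (`s ⊂ S`) take `V_s`,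
`l_s` by induction; `V = {S} ∪ ⋃ V_s`, `l S = h`, `l s = l_s s - h > 0` for the classes, `l d = l_s d`
for `d ∈ V_s`, `d ≠ s` (the `V_s` are disjoint). `p, q` in different classes: only `S` contains both.
Same class `s`: the sum is `h + (l_s s - h) + ... = δ p q`. For `S = univ` this is the claim. -/
def UltStmt : Prop := ∀ (P : Type) [Fintype P] [DecidableEq P] (δ : P → P → ℝ),
    2 ≤ Fintype.card P → (∀ p q, δ p q = δ q p) →
    (∀ p q r, p ≠ q → q ≠ r → p ≠ r → min (δ p q) (δ q r) ≤ δ p r) → ∃ Λ : Lam P, Λ.Rep δ 0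

/-- REP (40 lines; uses CHN, ULT). PROOF. `δ = dis v z`; for distinct `p, q, r`,
`z p - z r = (z p - z q) + (z q - z r)` and QU give `min (δ p q) (δ q r) - c₀ ≤ δ p r`. CHN, ULT. -/
def RepStmt : Prop := ∀ (E : Type) [Field E] (v : AbsoluteValue E ℝ) (c₀ : ℝ), QU v c₀ →
    ∀ (P : Type) [Fintype P] [DecidableEq P], 2 ≤ Fintype.card P → ∀ z : P → E,
    Function.Injective z → ∃ Λ : Lam P, Λ.Rep (dis v z) ((Fintype.card P : ℝ) * c₀)

/-- CNT (80 lines). Double counting. PROOF. For `δ = fun p q => lev {p, q}` equality holds: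
`pairs R δ = ∑_{d ∈ V} l d #{(p,q) : p ≠ q ∈ d ∩ R} = ∑_d l d a (a - 1)`,
`cross R Rᶜ δ = ∑_d l d a b`, `pairs Rᶜ δ = ∑_d l d b (b - 1)`. The error for `δ` is at most
`((4g+8)/2 n² + (2g+1) n² + γ/2 n²) e₁ ≤ (8g+16) n² e₁`, `n = card P`. -/
def CntStmt : Prop := ∀ (g : ℕ) (P : Type) [Fintype P] [DecidableEq P] (Λ : Lam P) (R : Finset P)
    (δ : P → P → ℝ) (e₁ : ℝ), Λ.Rep δ e₁ →
    |Phi g R δ - ∑ d ∈ Λ.V, Λ.l d * w0 g (d ∩ R).card (d \ R).card| ≤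
      (8 * (g : ℝ) + 16) * (Fintype.card P : ℝ) ^ 2 * e₁

/-- LOC (STRONG, 150 lines; uses TRE, VLM, REP, CNT). The local inequality.
PROOF. `ε` from TRE, `n = card P = 6g+9`, `e₁ = n c₀`, `Λ` from REP, `μ` from TRE. For `x ∉ R`:
`log |U_x(z x)| - log |c_x| = ∑_{ζ} log |z x - ζ|` over the `N_x` roots of `U_x` (`|lead U_x| = |c_x|`,
`Splits.eval_eq_prod_roots`; `z x` is not a root), `≤ N_x (e₂ + c₀ + 3 e₁ + En (μ x) x)` by VLM.
Divide by `N_x`, sum over `x ∈ Rᶜ` (`4g+8` terms), multiply by `3g`. With CNT and TRE: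
`ε len ≤ ∑ l w0 - 3g ∑ En ≤ Phi - 3g ∑ (log |U_x(z x)| - log |c_x|)/N_x + M (c₀ + e₂)`. Finally
`dis p' q' - dis p q ≤ lev {p',q'} - lev {p,q} + 2 e₁ ≤ len + 2 e₁` (both levels contain `l univ`, the
other lengths are positive). -/
def LocStmt : Prop := ∀ g : ℕ, 2 ≤ g → ∃ ε M : ℝ, 0 < ε ∧ ∀ (E : Type) [Field E]
    (v : AbsoluteValue E ℝ) (c₀ e₂ : ℝ), QU v c₀ → 0 ≤ e₂ → ∀ (P : Type) [Fintype P]
    [DecidableEq P] (R : Finset P), R.card = 2 * g + 1 →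
    Fintype.card P = 2 * g + 1 + (4 * g + 8) → ∀ z : P → E, Function.Injective z →
    ∀ (e : E) (N : P → ℕ) (U W : P → E[X]) (c : P → E), e ≠ 0 →
    (∀ x, x ∉ R → IsSol (FF e R z) (z x) (N x) (U x) (W x) (c x) ∧ (U x).Splits) →
    (∀ Λ : Lam P, Λ.Rep (dis v z) ((Fintype.card P : ℝ) * c₀) → ∀ d ∈ Λ.V, Λ.Grd R d →
      ∃ p ∈ d, ∀ x, x ∉ R → Harm v (U x).roots (z x) (z p) (Real.exp (-Λ.lev d)) e₂) →
    ∀ p q p' q', p ≠ q → p' ≠ q' → ε * (dis v z p' q' - dis v z p q) ≤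
      Phi g R (dis v z) - 3 * g * ∑ x ∈ Rᶜ,
        (Real.log (v ((U x).eval (z x))) - Real.log (v (c x))) / N x + M * (c₀ + e₂)

/-- LOB (60 lines; uses LOC, OTA, OTN). The local inequality for the places of a number field.
PROOF. Nonarchimedean: `QU v 0`, `e₂ = 0`, the hypothesis of LOC by OTN. `ℂ`: `QU vC (log 2)`, `e₂` from
OTA with `n = 6g+9`, `M = n log 2` (all polynomials over `ℂ` split). `M'` of the conclusion:
`M (log 2 + e₂)`. -/
def LobStmt : Prop := ∀ g : ℕ, 2 ≤ g → ∃ ε M : ℝ, 0 < ε ∧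
    (∀ (E : Type) [Field E] (v : AbsoluteValue E ℝ), IsNonarchimedean v → ∀ z : PP g → E,
      Function.Injective z → ∀ (e : E) (N : PP g → ℕ) (U W : PP g → E[X]) (c : PP g → E), e ≠ 0 →
      (∀ x, x ∉ RR g → IsSol (FF e (RR g) z) (z x) (N x) (U x) (W x) (c x) ∧ (U x).Splits) →
      ∀ p q p' q', p ≠ q → p' ≠ q' → ε * (dis v z p' q' - dis v z p q) ≤
        Phi g (RR g) (dis v z) - 3 * g * ∑ x ∈ (RR g)ᶜ,
          (Real.log (v ((U x).eval (z x))) - Real.log (v (c x))) / N x) ∧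
    (∀ z : PP g → ℂ, Function.Injective z → ∀ (e : ℂ) (N : PP g → ℕ) (U W : PP g → ℂ[X])
      (c : PP g → ℂ), e ≠ 0 →
      (∀ x, x ∉ RR g → IsSol (FF e (RR g) z) (z x) (N x) (U x) (W x) (c x)) →
      ∀ p q p' q', p ≠ q → p' ≠ q' → ε * (dis vC z p' q' - dis vC z p q) ≤
        Phi g (RR g) (dis vC z) - 3 * g * ∑ x ∈ (RR g)ᶜ,
          (Real.log ‖(U x).eval (z x)‖ - Real.log ‖c x‖) / N x + M)

end Pool.Agent.MNT
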