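import Pool.Agent.MNT.StmtsA

set_option autoImplicit false

/-!
# MNT, block G: number fields, class groups, the theorem
-/

namespace Pool.Agent.MNT

open Polynomial NumberField
open scoped Classical

/-- PFL (100 lines; model: `height_le` in `Helper76_BHT/T2.lean`). Product formula and height as finite
sums. PROOF. Each `v (y i)`, `v : FinitePlace K`, is `1` outside a finite set
(`FinitePlace.hasFiniteMulSupport`); `S` = union of these sets, `T ⊇ S` arbitrary. `prod_abs_eq_one` and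
`finprod_eq_prod_of_mulSupport_subset`, take `Real.log` (`Real.log_prod`, `Real.log_pow`). The height:
`NumberField.mulHeight_eq` (`y ≠ 0`); the suprema `⨆ i, v (y i)` are positive and equal to `1` outside
`T`. -/
def PflStmt : Prop := ∀ (K : Type) [Field K] [NumberField K] (ι : Type) [Fintype ι] [Nonempty ι]
    (y : ι → K), (∀ i, y i ≠ 0) → ∃ S : Finset (FinitePlace K), ∀ T : Finset (FinitePlace K),
      S ⊆ T →
      (∀ i, ∑ v : InfinitePlace K, (v.mult : ℝ) * Real.log (v (y i)) +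
        ∑ v ∈ T, Real.log (v (y i)) = 0) ∧
      Real.log (Height.mulHeight y) =
        ∑ v : InfinitePlace K, (v.mult : ℝ) * Real.log (⨆ i, v (y i)) +
        ∑ v ∈ T, Real.log (⨆ i, v (y i))

/-- HGT (STRONG, 250 lines; uses LOB, PFL, `BHT.EVStmt` (proved: `BHT.ev`), `UBT.Ext1Stmt` (proved:
`ext1` in `Helper81_UBT/Ext1.lean`)). Bounded height of the configuration.
PROOF. Let `y` be the family consisting of all `z p - z q` (`p ≠ q`), all `(U x).eval (z x)` and all
`c x` (`x ∉ RR g`); PFL for `y` and for the family of all `z p - z q` (`p ≠ q`) gives two finite sets;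
let `S` be their union. Let `E ⊇ K` be a number field in which
`∏_{x ∉ RR} U x` splits (EXT1; `U x ≠ 0` because `lead² = c² ≠ 0`).
Let `Δ_v(p,q,p',q') = dis v z p' q' - dis v z p q = log |z p - z q|_v - log |z p' - z q'|_v` and `RHS_v` the
right hand side of LOB. (i) `v` infinite: apply the second part of LOB to `φ ∘ z`, `φ = v.embedding`,
and the mapped polynomials (`‖φ a‖ = v a`, `InfinitePlace.norm_embedding_eq`; `IsSol` and `FF` are
preserved by `Polynomial.map`): `ε Δ_v ≤ RHS_v + M`. (ii) `v` finite: EV gives `v'` on `E` extending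
`v`, nonarchimedean; apply the first part to `algebraMap ∘ z`: `ε Δ_v ≤ RHS_v`. Fix `p' ≠ q'` and take the maximum over `(p, q)`, multiply by `v.mult` for infinite places and
sum: `RHS_v` is a linear combination with rational coefficients independent of `v` of the `log |y_i|_v`,
so it sums to `0`; `∑ v.mult = [K : ℚ]`. The left side sums to `ε log (mulHeight of (z p - z q)_{p ≠ q})`
(product formula for `z p' - z q'`). So `log mulHeight ≤ (M/ε) [K:ℚ]`, `H = exp (max M 0 / ε)`.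
The vector over all pairs has the same height (`Height.mulHeight_eq_mulHeight_restrict_support`; the
support is `{p ≠ q}` because `z` is injective). -/
def HgtStmt : Prop := ∀ g : ℕ, 2 ≤ g → ∃ H : ℝ, 1 ≤ H ∧ ∀ (K : Type) [Field K] [NumberField K]
    (z : PP g → K), Function.Injective z → ∀ (e : K) (N : PP g → ℕ) (U W : PP g → K[X])
    (c : PP g → K), e ≠ 0 →
    (∀ x, x ∉ RR g → IsSol (FF e (RR g) z) (z x) (N x) (U x) (W x) (c x)) →
    Height.mulHeight (fun pq : PP g × PP g => z pq.1 - z pq.2) ≤ H ^ Module.finrank ℚ K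

/-- The ideal `(X - x, Y - y)` of the coordinate ring `K[X, Y]/(Y² - f)`. -/
noncomputable def ptI {K : Type} [Field K] (f : K[X]) (x y : K) : Ideal (H58Q.Q K f) :=
  Ideal.span {(⟨X - C x, 0⟩ : H58Q.Q K f), ⟨-C y, 1⟩}

/-- `N ≥ 1` and the `N`-th power of the ideal of the point `(x, y)` is principal. -/
def TorB {K : Type} [Field K] (f : K[X]) (x y : K) (N : ℕ) : Prop :=
  1 ≤ N ∧ ((ptI f x y) ^ N).IsPrincipal

/-- PTA (40 lines). PROOF. `I = (X-x, Y-y)`, `I' = (X-x, Y+y)`. `I I'` contains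
`(X-x)(Y+y) - (X-x)(Y-y) = 2y (X-x)`, hence `X - x`. Conversely the products of generators are in
`(X-x)`: `(Y-y)(Y+y) = f - f(x)` is divisible by `X - x`. -/
def PtaStmt : Prop := ∀ (K : Type) [Field K] (f : K[X]) (x y : K), (2 : K) ≠ 0 →
    y ^ 2 = f.eval x → y ≠ 0 →
    ptI f x y * ptI f x (-y) = Ideal.span {(⟨X - C x, 0⟩ : H58Q.Q K f)}

/-- PTB (80 lines; uses PTA). PROOF. `σ(u + w Y) = u - w Y` is a ring automorphism (conjugation,
`star`), `σ(I) = I'`, so `I'^N = (σ α)` and `((X-x)^N) = (I I')^N = (α σα)`, `α σα = ⟨n, 0⟩`,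
`n = re² - f im²`. So `⟨n,0⟩ = ε ⟨(X-x)^N, 0⟩` with a unit `ε = ⟨ε₁, ε₂⟩`; comparing imaginary parts
`ε₂ = 0`; likewise `(X-x)^N = ε₁' n`, so `ε₁` is a unit of `K[X]`, a nonzero constant. (`Q K f` is a
domain: `H58Q.instIsDomainQ`.) -/
def PtbStmt : Prop := ∀ (K : Type) [Field K] (f : K[X]) (x y : K) (N : ℕ), (2 : K) ≠ 0 →
    Odd f.natDegree → y ^ 2 = f.eval x → y ≠ 0 → ∀ α : H58Q.Q K f,
    (ptI f x y) ^ N = Ideal.span {α} → ∃ c : K, c ≠ 0 ∧
      α.re ^ 2 - f * α.im ^ 2 = C c * (X - C x) ^ N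

/-- PTC (60 lines; uses PTB). PROOF. Suppose `α.re.eval x = 0`. By PTB (`N ≥ 1`) `f(x) α.im(x)² = 0`,
so `α.im.eval x = 0` and `α` is divisible by `X - x`. Let `φ : Q K f → K`, `u + w Y ↦ u(x) - w(x) y` (a
ring homomorphism because `y² = f(x)`). Then `φ(X - x) = 0`, so `I^N ≤ ker φ`, `ker φ` is prime, so
`I ≤ ker φ` and `φ(Y - y) = -2y = 0`, contradiction. -/
def PtcStmt : Prop := ∀ (K : Type) [Field K] (f : K[X]) (x y : K) (N : ℕ), (2 : K) ≠ 0 →
    Odd f.natDegree → y ^ 2 = f.eval x → y ≠ 0 → 1 ≤ N → ∀ α : H58Q.Q K f,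
    (ptI f x y) ^ N = Ideal.span {α} → α.re.eval x ≠ 0

/-- PEL (80 lines; uses PTB, PTC). Torsion gives a solution. PROOF. `I^N = (α)`, `u = α.re`,
`w = α.im`, `u² - f w² = c (X-x)^N`, `u(x) ≠ 0`. Put `U = u² + f w²`, `W = 2 u w`:
`U² - f W² = (u² - f w²)²`. `deg u²` is even, `deg (f w²)` is odd (or `w = 0`), so
`deg (u² ± f w²)` is the maximum, `= N`, and the leading coefficient of `U` is the one of `u²`
(`= c`) or of `f w²` (`= -c`). `U(x) = 2 u(x)² - c · 0 ≠ 0` (`N ≥ 1`). -/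
def PelStmt : Prop := ∀ (K : Type) [Field K] (f : K[X]) (x y : K) (N : ℕ), (2 : K) ≠ 0 →
    Odd f.natDegree → y ^ 2 = f.eval x → y ≠ 0 → TorB f x y N →
    ∃ (U W : K[X]) (c : K), IsSol f x N U W c

/-- A configuration over `K`: `z` = roots (on `RR g`) and abscissae (outside `RR g`), the curve
`Y² = e ∏ (X - roots)`, torsion points `(z x, y x)`. -/
structure Conf (g : ℕ) {K : Type} [Field K] (z : PP g → K) (e : K) (y : PP g → K) : Prop where
  inj : Function.Injective z
  e_ne : e ≠ 0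
  pt : ∀ x, x ∉ RR g → y x ^ 2 = (FF e (RR g) z).eval (z x)
  tor : ∀ x, x ∉ RR g → ∃ N, TorB (FF e (RR g) z) (z x) (y x) N

/-- TH1 (50 lines; uses HGT, PEL). PROOF. `FF e (RR g) z` has degree `#RR g = 2g+1`, its value at `z x`
is nonzero because `z` is injective, so `y x ≠ 0`; PEL gives the solutions (choose), HGT. -/
def Th1Stmt : Prop := ∀ g : ℕ, 2 ≤ g → ∃ H : ℝ, 1 ≤ H ∧ ∀ (K : Type) [Field K] [NumberField K]
    (z : PP g → K) (e : K) (y : PP g → K), Conf g z e y →
    Height.mulHeight (fun pq : PP g × PP g => z pq.1 - z pq.2) ≤ H ^ Module.finrank ℚ K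

/-- TH2 (60 lines; uses TH1, `BHT.NCSStmt` (proved: `ncs` in `Helper76_BHT/Ncs.lean`)). Finiteness.
PROOF. NCS with `ι = PP g × PP g`, `X = H ^ d` gives a finite set `F`. For a configuration the vector
`(z p - z q)` is nonzero, so `φ (z p - z q) = μ Y (p,q)` with `Y ∈ F`, `μ ≠ 0`. Fix `p₀ : PP g`; `S` = the
set of all `p ↦ Y (p, p₀)`; `φ (z p) = μ Y (p, p₀) + φ (z p₀)`. -/
def Th2Stmt : Prop := ∀ g : ℕ, 2 ≤ g → ∀ d : ℕ, ∃ S : Finset (PP g → AlgebraicClosure ℚ),
    ∀ (K : Type) [Field K] [NumberField K], Module.finrank ℚ K ≤ d →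
    ∀ (z : PP g → K) (e : K) (y : PP g → K), Conf g z e y → ∀ φ : K →+* AlgebraicClosure ℚ,
    ∃ s ∈ S, ∃ μ ν : AlgebraicClosure ℚ, μ ≠ 0 ∧ ∀ p, φ (z p) = μ * s p + ν

/-- BCH (50 lines; uses `UBT.BC1Stmt` (proved: `bc1` in `Helper76_UBT/BC1.lean`)). Base change of the
torsion condition. PROOF. `(ptI f x y).map (Q.map φ f) = ptI (f.map φ) (φ x) (φ y)` (`Ideal.map_span`,
images of the two generators), and `Ideal.map_pow`. The image of a principal ideal is principal;
the converse is BC1 (`I ^ N ≠ ⊥`: it contains `(X - x)^N ≠ 0`). -/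
def BchStmt : Prop := ∀ (K L : Type) [Field K] [Field L] (φ : K →+* L) (f : K[X]) (x y : K) (N : ℕ),
    Odd f.natDegree → (TorB f x y N ↔ TorB (f.map φ) (φ x) (φ y) N)

/-- AFF (80 lines; uses the homomorphism `chg` of `Helper51_UBT/Iso.lean`). Affine changes of the
configuration over an algebraically closed field. PROOF. `F = FF e (RR g) z`, `G = FF e' (RR g) z'`:
`F.comp (C μ * X + C ν) = C (e μ^(2g+1)/e') * G`. Choose `s` with `s² = e μ^(2g+1)/e'`. `chg` maps
`X ↦ μ X + ν`, `Y ↦ s Y`; the ideal `(X - z x, Y - y)` goes to `(X - z' x, Y - y/s)`, and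
`(y/s)² = F(z x)/s² = G(z' x)`, so `y/s = ± y'`; in the second case replace `s` by `-s`. The image of a
principal ideal is principal. -/
def AffStmt : Prop := ∀ (g : ℕ) (Ω : Type) [Field Ω] [IsAlgClosed Ω] (z z' : PP g → Ω)
    (e e' μ ν : Ω), e ≠ 0 → e' ≠ 0 → μ ≠ 0 → (∀ p, z p = μ * z' p + ν) →
    ∀ (x : PP g) (y y' : Ω) (N : ℕ), y ^ 2 = (FF e (RR g) z).eval (z x) →
    y' ^ 2 = (FF e' (RR g) z').eval (z' x) → TorB (FF e (RR g) z) (z x) y N →
    TorB (FF e' (RR g) z') (z' x) y' N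

/-- TH3 (100 lines; uses TH2, BCH, AFF). Bounded orders for split curves.
PROOF. `Ω = AlgebraicClosure ℚ`, `S` from TH2. For `s ∈ S`, `x : PP g` choose a square root `t` of
`(FF 1 (RR g) s).eval (s x)` and let `o(s, x)` be the least `N` with `TorB (FF 1 (RR g) s) (s x) t N`
if there is one, else `0`. `B` = maximum of all `o(s, x)`. For a configuration over `K` choose
`φ : K →+* Ω` and `s, μ, ν`. `TorB` for some `N₀` over `K` gives it over `Ω` (BCH; `(FF e R z).map φ =
FF (φ e) R (φ ∘ z)`) and then for `(s, x)` (AFF), so `o(s,x) ≥ 1` is a possible `N` there; by AFF in the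
other direction (`s p = μ⁻¹ φ(z p) - μ⁻¹ ν`) and BCH it is possible over `K`, and it is `≤ B`. -/
def Th3Stmt : Prop := ∀ g : ℕ, 2 ≤ g → ∀ d : ℕ, ∃ B : ℕ,
    ∀ (K : Type) [Field K] [NumberField K], Module.finrank ℚ K ≤ d →
    ∀ (z : PP g → K) (e : K) (y : PP g → K), Conf g z e y → ∀ x, x ∉ RR g →
    ∃ N ≤ B, TorB (FF e (RR g) z) (z x) (y x) N

/-- TH4 (100 lines; uses TH3, BCH, `UBT.Ext1Stmt`). Bounded orders, curve not split.
PROOF. Let `E ⊇ K` be a number field of degree `≤ (2g+1)!` over `K` in which `f` splits (EXT1);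
`f` is squarefree, so `f` has `2g+1` distinct roots in `E`: bijection `θ : Fin (2g+1) → E` onto them,
`f.map = FF e (RR g) z`, `z = Sum.elim θ (algebraMap ∘ x)`, `e` the leading coefficient. `z` is
injective because `y i ≠ 0` (abscissae are not roots). BCH gives `Conf`; TH3 with
`d (2g+1)!`; BCH back. -/
def Th4Stmt : Prop := ∀ g : ℕ, 2 ≤ g → ∀ d : ℕ, ∃ B : ℕ,
    ∀ (K : Type) [Field K] [NumberField K], Module.finrank ℚ K ≤ d →
    ∀ (f : K[X]), f.natDegree = 2 * g + 1 → Squarefree f →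
    ∀ (x y : Fin (4 * g + 8) → K), Function.Injective x → (∀ i, y i ^ 2 = f.eval (x i)) →
    (∀ i, y i ≠ 0) → (∀ i, ∃ N, TorB f (x i) (y i) N) → ∀ i, ∃ N ≤ B, TorB f (x i) (y i) N

/-- CNJ (STRONG, 120 lines; uses BCH, `UBT.Ext1Stmt`). Conjugate points.
PROOF. `M = K(θ)` (primitive element). Let `E ⊇ M` be a number field in which
`(minpoly K θ) (minpoly K x)` splits, `[E : M] ≤ (2 [M:K])! ≤ (2d)!` (EXT1). The `≥ 4g+8` roots of
`minpoly K x` in `E` are distinct (separable); for every root `x'` there is a `K`-homomorphism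
`σ : M → E` with `σ x = x'` (extend `K(x) → E`; minimal polynomials of elements of `M` split in `E`,
e.g. because `E` contains all conjugates of `θ`; `IntermediateField.exists_algHom_of_splits`...).
Choose `4g+8` distinct roots, the first one being the image of `x`; `x' i = σ_i x`, `y' i = σ_i y`.
As `f` has coefficients in `K`, `(f.map (algebraMap K M)).map σ_i = f.map (algebraMap K E)`, and BCH for
`σ_i` gives `TorB` over `E`. -/
def CnjStmt : Prop := ∀ (m d : ℕ), 1 ≤ m → ∃ D : ℕ, ∀ (K M : Type) [Field K] [NumberField K]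
    [Field M] [NumberField M] [Algebra K M], Module.finrank ℚ M ≤ d →
    ∀ (f : K[X]), Odd f.natDegree → ∀ x y : M, m ≤ (minpoly K x).natDegree →
    y ^ 2 = (f.map (algebraMap K M)).eval x → y ≠ 0 →
    (∃ N, TorB (f.map (algebraMap K M)) x y N) →
    ∃ (E : Type) (_ : Field E) (_ : NumberField E) (_ : Algebra K E) (σ : M →ₐ[K] E)
      (x' y' : Fin m → E), Module.finrank ℚ E ≤ D ∧ Function.Injective x' ∧
      (∃ i, x' i = σ x ∧ y' i = σ y) ∧
      ∀ i, y' i ^ 2 = (f.map (algebraMap K E)).eval (x' i) ∧ y' i ≠ 0 ∧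
        ∃ N, TorB (f.map (algebraMap K E)) (x' i) (y' i) N

/-- TH5 (50 lines; uses TH4, CNJ, BCH). Uniform bound of the order of torsion points of large degree
on hyperelliptic curves. PROOF. CNJ with `m = 4g+8`, TH4 over `E` for `f.map`, back to `M` by BCH for
`σ` (`(f.map (algebraMap K M)).map σ = f.map (algebraMap K E)`); squarefree is preserved because
`K` is perfect (separable). -/
def Th5Stmt : Prop := ∀ g : ℕ, 2 ≤ g → ∀ d : ℕ, ∃ B : ℕ,
    ∀ (K M : Type) [Field K] [NumberField K] [Field M] [NumberField M] [Algebra K M],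
    Module.finrank ℚ M ≤ d → ∀ (f : K[X]), f.natDegree = 2 * g + 1 → Squarefree f →
    ∀ x y : M, 4 * g + 8 ≤ (minpoly K x).natDegree →
    y ^ 2 = (f.map (algebraMap K M)).eval x → y ≠ 0 →
    (∃ N, TorB (f.map (algebraMap K M)) x y N) →
    ∃ N ≤ B, TorB (f.map (algebraMap K M)) x y N

/-- ORD (50 lines). Classes in the class group. PROOF. `ClassGroup.mk0 ⟨I, _⟩ ^ N = mk0 ⟨I ^ N, _⟩`,
`ClassGroup.mk0_eq_one_iff`. `IsDedekindDomain (H58Q.Q K f)`: `H58Q.isDedekind`; `I ≠ ⊥` because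
`X - x ∈ I`. `P` is the class of `I`: (i) finite order iff some `TorB`; (ii) `orderOf ≤ N` if
`TorB ... N` (`orderOf_le_of_pow_eq_one`). -/
def OrdStmt : Prop := ∀ (K : Type) [Field K] [CharZero K] (C : UBT.OddCurve K) (x y : K),
    ∃ P : C.Jac, (IsOfFinOrder P ↔ ∃ N, TorB C.f x y N) ∧ (∀ N, TorB C.f x y N → orderOf P ≤ N) ∧
      ∀ [IsDedekindDomain (H58Q.Q K C.f)] (h : ptI C.f x y ∈ nonZeroDivisors (Ideal (H58Q.Q K C.f))),
        P = ClassGroup.mk0 ⟨ptI C.f x y, h⟩

end Pool.Agent.MNT
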