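import Mathlib
import Pool.Agent.Helper27_UBT.Stmts
import Pool.Agent.Helper27_BHT.Stmts

set_option autoImplicit false

/-!
# MNT (MP_160b6c_nt): many torsion points force bounded height. Definitions.

`g ≥ 2`, `2 g + 1` finite roots, `4 g + 8` points. See note 2921 for the proof.
-/

namespace Pool.Agent.MNT

open Polynomial NumberField

/-! ## Laminar families of clusters -/

/-- A laminar family `V` of subsets ((clusters)) of the finite set `P`, all with at least two
elements, containing `P` itself, with a length `l d > 0` for every proper cluster; `l univ` is the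
level of the whole set (any real number). -/
structure Lam (P : Type) [Fintype P] [DecidableEq P] where
  V : Finset (Finset P)
  top_mem : Finset.univ ∈ V
  two_le : ∀ c ∈ V, 2 ≤ c.card
  lam : ∀ c ∈ V, ∀ d ∈ V, c ⊆ d ∨ d ⊆ c ∨ Disjoint c d
  l : Finset P → ℝ
  pos : ∀ c ∈ V, c ≠ Finset.univ → 0 < l c

section lam

variable {P : Type} [Fintype P] [DecidableEq P]

/-- Level of a subset: the sum of the lengths of all clusters containing it. -/
def Lam.lev (Λ : Lam P) (s : Finset P) : ℝ := ∑ d ∈ Λ.V with s ⊆ d, Λ.l d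

/-- Total length of the proper clusters. -/
def Lam.len (Λ : Lam P) : ℝ := ∑ d ∈ Λ.V with d ≠ Finset.univ, Λ.l d

/-- `s` is a child of `c`: `c` is the least cluster strictly containing `s`. -/
def Lam.Kid (Λ : Lam P) (c s : Finset P) : Prop :=
  s ∈ Λ.V ∧ s ⊂ c ∧ ∀ d ∈ Λ.V, s ⊂ d → c ⊆ d

/-- The cluster `c` is grounded (`R` = set of roots): either some root `p ∈ c` is a singleton child
of `c`, or some child cluster of `c` contains an odd number of roots. -/
def Lam.Grd (Λ : Lam P) (R : Finset P) (c : Finset P) : Prop :=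
  (∃ p ∈ R, p ∈ c ∧ ∀ d ∈ Λ.V, p ∈ d → c ⊆ d) ∨ ∃ s, Λ.Kid c s ∧ Odd (s ∩ R).card

/-- `μ` is a probability vector on the grounded clusters. -/
def Lam.Prob (Λ : Lam P) (R : Finset P) (μ : Finset P → ℝ) : Prop :=
  (∀ c ∈ Λ.V, 0 ≤ μ c) ∧ (∀ c ∈ Λ.V, μ c ≠ 0 → Λ.Grd R c) ∧ ∑ c ∈ Λ.V, μ c = 1

/-- Energy of `μ` seen from the point `x`. -/
def Lam.En (Λ : Lam P) (μ : Finset P → ℝ) (x : P) : ℝ :=
  ∑ c ∈ Λ.V, ∑ d ∈ Λ.V, μ c * μ d * (Λ.lev (c ∪ d) - Λ.lev (insert x c) - Λ.lev (insert x d))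

/-- `Λ` represents the function `δ` (think of `-log |z p - z q|`) on pairs with error `e`. -/
def Lam.Rep (Λ : Lam P) (δ : P → P → ℝ) (e : ℝ) : Prop :=
  ∀ p q, p ≠ q → |δ p q - Λ.lev {p, q}| ≤ e

/-- sums over ordered pairs of distinct elements of `A` -/
def pairs (A : Finset P) (δ : P → P → ℝ) : ℝ := ∑ p ∈ A, ∑ q ∈ A.erase p, δ p q

/-- sums over pairs in `A × B` -/
def cross (A B : Finset P) (δ : P → P → ℝ) : ℝ := ∑ p ∈ A, ∑ q ∈ B, δ p q

end lam

/-! ## Constants -/

/-- `γ = 2 (2 g² + 1) / (4 g + 7)` -/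
noncomputable def gam (g : ℕ) : ℝ := (4 * (g : ℝ) ^ 2 + 2) / (4 * g + 7)

/-- `k = 3 g - γ / 2` -/
noncomputable def kc (g : ℕ) : ℝ := (10 * (g : ℝ) ^ 2 + 21 * g - 1) / (4 * g + 7)

/-- `(g + 1) (2 g + 1) - k` -/
noncomputable def Bc (g : ℕ) : ℝ := 2 * (g : ℝ) ^ 2 + 3 * g + 1 - kc g

/-- weight of a cluster with `a` roots and `b` points, `A`-terms not included -/
noncomputable def w0 (g a b : ℕ) : ℝ :=
  (4 * (g : ℝ) + 8) * (a * (a - 1) / 2) - (2 * g + 1) * a * b + gam g * (b * (b - 1) / 2)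

/-- weight of a cluster with `a ≥ 1` roots and `b` points -/
noncomputable def w1 (g a b : ℕ) : ℝ := w0 g a b + 3 * g * b

/-- The quadratic functional of the configuration (ordered pairs, hence the factors `1 / 2`). -/
noncomputable def Phi {P : Type} [Fintype P] [DecidableEq P] (g : ℕ) (R : Finset P)
    (δ : P → P → ℝ) : ℝ :=
  (4 * (g : ℝ) + 8) / 2 * pairs R δ - (2 * g + 1) * cross R Rᶜ δ + gam g / 2 * pairs Rᶜ δ

/-! ## Rooted forests and resistances -/

/-- A rooted tree, given as a finite partial order with parent function. -/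
structure Tree (V : Type) [PartialOrder V] [OrderTop V] where
  par : V → V
  lt_par : ∀ c, c ≠ ⊤ → c < par c
  par_le : ∀ c d, c < d → par c ≤ d

section tree

open scoped Classical

variable {V : Type} [Fintype V] [PartialOrder V] [OrderTop V]

/-- The children of `v`. -/
noncomputable def Tree.kids (T : Tree V) (v : V) : Finset V :=
  Finset.univ.filter fun c => c ≠ ⊤ ∧ T.par c = v

/-- `M_c(X)`: mass of `X` in the subtree of `c`. -/
noncomputable def MM (X : V → ℝ) (c : V) : ℝ := ∑ j with j ≤ c, X j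

/-- Energy `∑ l_c M_c(X)²` over all edges `c ≠ ⊤` (the edge from `c` to its parent). -/
noncomputable def QQ (l : V → ℝ) (X : V → ℝ) : ℝ := ∑ c with c ≠ ⊤, l c * MM X c ^ 2

/-- Unit mass at `v`. -/
noncomputable def dl (v : V) : V → ℝ := fun j => if j = v then 1 else 0

/-- `s v`: resistance from `v` downwards to the grounded nodes; `r c`: resistance from the parent of
`c` to the grounded nodes without using the edge `c` and its subtree. -/
structure Res (T : Tree V) (G : V → Prop) (l s r : V → ℝ) : Prop where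
  s_grd : ∀ v, G v → s v = 0
  s_pos : ∀ v, ¬ G v → 0 < s v
  s_eq : ∀ v, ¬ G v → (s v)⁻¹ = ∑ c ∈ T.kids v, (l c + s c)⁻¹
  r_grd : ∀ c, c ≠ ⊤ → G (T.par c) → r c = 0
  r_pos : ∀ c, c ≠ ⊤ → ¬ G (T.par c) → 0 < r c
  r_eq : ∀ c, c ≠ ⊤ → ¬ G (T.par c) → (r c)⁻¹ = (l (T.par c) + r (T.par c))⁻¹ +
    ∑ c' ∈ (T.kids (T.par c)).erase c, (l c' + s c')⁻¹

/-- Resistance from `v` to the grounded nodes. -/
noncomputable def hh (l s r : V → ℝ) (v : V) : ℝ := s v * (l v + r v) / (s v + l v + r v)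

/-- `J_c = l [3 (s - r)² + l²] / L²`, `L = s + l + r`. -/
noncomputable def JJ (l s r : V → ℝ) (c : V) : ℝ :=
  l c * (3 * (s c - r c) ^ 2 + l c ^ 2) / (s c + l c + r c) ^ 2

/-- `D_c = l (s - r) / L`: the difference of the resistances of the two ends of the edge `c`. -/
noncomputable def DD (l s r : V → ℝ) (c : V) : ℝ :=
  l c * (s c - r c) / (s c + l c + r c)

/-- Labels: `a v`, `b v` = number of roots and of points in the cluster `v`; `G` = grounded. -/
structure Lab (g : ℕ) (T : Tree V) (G : V → Prop) (a b : V → ℕ) : Prop where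
  a_pos : ∀ v, 1 ≤ a v
  a_le : ∀ v, a v ≤ 2 * g + 1
  b_le : ∀ v, b v ≤ 4 * g + 8
  two_le : ∀ v, 2 ≤ a v + b v
  proper : ∀ v, v ≠ ⊤ → a v = 2 * g + 1 → b v < 4 * g + 8
  a_kids : ∀ v, ∑ c ∈ T.kids v, a c ≤ a v
  b_kids : ∀ v, ∑ c ∈ T.kids v, b c ≤ b v
  top : G ⊤
  even : ∀ v, ¬ G v → Even (a v)
  sum_eq : ∀ v, ¬ G v → ∑ c ∈ T.kids v, a c = a v
  kids_even : ∀ v, ¬ G v → ∀ c ∈ T.kids v, Even (a c)

end tree

/-! ## Absolute values and solutions of the Pell equation with a moving point -/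

/-- weak ultrametric inequality with constant `exp c₀` -/
def QU {E : Type} [Field E] (v : AbsoluteValue E ℝ) (c₀ : ℝ) : Prop :=
  0 ≤ c₀ ∧ ∀ a b, v (a + b) ≤ Real.exp c₀ * max (v a) (v b)

/-- `U² - F W² = (c (X - x)^N)²`, normalised: what torsion of the point above `x` gives. -/
structure IsSol {E : Type} [Field E] (F : E[X]) (x : E) (N : ℕ) (U W : E[X]) (c : E) : Prop where
  pos : 1 ≤ N
  c_ne : c ≠ 0
  eq : U ^ 2 - F * W ^ 2 = (C c * (X - C x) ^ N) ^ 2
  deg : U.natDegree = N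
  lead : U.leadingCoeff ^ 2 = c ^ 2
  ev : U.eval x ≠ 0

/-- The inequality at the centre `p` and radius `r`:
`∑_ζ log max(r, |ζ - p|) ≤ #Z (log max(r, |x - p|) + e)`. -/
def Harm {E : Type} [Field E] (v : AbsoluteValue E ℝ) (Z : Multiset E) (x p : E) (r e : ℝ) : Prop :=
  (Z.map fun ζ => Real.log (max r (v (ζ - p)))).sum ≤
    (Multiset.card Z : ℝ) * (Real.log (max r (v (x - p))) + e)

/-- `e ∏_{p ∈ R} (X - z p)` -/
noncomputable def FF {E P : Type} [Field E] (e : E) (R : Finset P) (z : P → E) : E[X] :=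
  C e * ∏ p ∈ R, (X - C (z p))

/-- `-log |z p - z q|` -/
noncomputable def dis {E P : Type} [Field E] (v : AbsoluteValue E ℝ) (z : P → E) (p q : P) : ℝ :=
  - Real.log (v (z p - z q))

/-- The usual absolute value of `ℂ`. -/
noncomputable def vC : AbsoluteValue ℂ ℝ where
  toFun z := ‖z‖
  map_mul' := norm_mul
  nonneg' := norm_nonneg
  eq_zero' _ := norm_eq_zero
  add_le' := norm_add_le

/-- Index set: `2 g + 1` roots (`inl`) and `4 g + 8` points (`inr`). -/
abbrev PP (g : ℕ) : Type := Fin (2 * g + 1) ⊕ Fin (4 * g + 8)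

/-- The roots. -/
def RR (g : ℕ) : Finset (PP g) := Finset.univ.filter fun p => p.isLeft

end Pool.Agent.MNT
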