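import Pool.Agent.MNT.Defs

set_option autoImplicit false

/-!
# MNT, block T: rooted trees, resistances, the tree inequality

Notation in the docstrings: for an edge `c ≠ ⊤` (from `c` to `par c`) `L = s c + l c + r c`,
`h = hh l s r`, `M = MM`, `Q = QQ l`.
-/

namespace Pool.Agent.MNT

open scoped Classical

/-- In a rooted tree two elements above a common element are comparable. -/
theorem Tree.comparable {V : Type} [Fintype V] [PartialOrder V] [OrderTop V] (T : Tree V) :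
    ∀ j c d : V, j ≤ c → j ≤ d → c ≤ d ∨ d ≤ c := by
  intro j
  induction j using WellFoundedGT.induction with
  | ind j ih =>
    intro c d hc hd
    rcases eq_or_lt_of_le hc with rfl | hc'
    · exact Or.inl hd
    rcases eq_or_lt_of_le hd with rfl | hd'
    · exact Or.inr hc
    have hj : j ≠ ⊤ := ne_top_of_lt hc'
    exact ih (T.par j) (T.lt_par j hj) c d (T.par_le j c hc') (T.par_le j d hd')

theorem Tree.mem_kids {V : Type} [Fintype V] [PartialOrder V] [OrderTop V] (T : Tree V) (v c : V) :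
    c ∈ T.kids v ↔ c ≠ ⊤ ∧ T.par c = v := by
  simp [Tree.kids]

/-- Elements strictly below `v` lie below exactly one child; here: two children with a common lower
element are equal. -/
theorem Tree.kids_disj {V : Type} [Fintype V] [PartialOrder V] [OrderTop V] (T : Tree V)
    {v c d j : V} (hc : c ∈ T.kids v) (hd : d ∈ T.kids v) (h1 : j ≤ c) (h2 : j ≤ d) : c = d := by
  rw [T.mem_kids] at hc hd
  have key : ∀ {x y : V}, x ≠ ⊤ → T.par x = v → y ≠ ⊤ → T.par y = v → x ≤ y → x = y := by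
    intro x y hx hxv hy hyv hxy
    by_contra hne
    have h3 := T.par_le x y (lt_of_le_of_ne hxy hne)
    rw [hxv, ← hyv] at h3
    exact absurd (lt_of_lt_of_le (T.lt_par y hy) h3) (lt_irrefl _)
  rcases T.comparable j c d h1 h2 with h | h
  · exact key hc.1 hc.2 hd.1 hd.2 h
  · exact (key hd.1 hd.2 hc.1 hc.2 h).symm

/-- RES (80 lines). Existence of the resistances.
PROOF. `s` by well-founded recursion for `<` (`WellFounded.fix wellFounded_lt`; `V` is finite):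
`s v = 0` if `G v`, else `s v = (∑_{c ∈ kids v} (l c + s c)⁻¹)⁻¹` (children satisfy `c < par c = v`;
use `if h : c < v then (l c + ih c h)⁻¹ else 0`). By induction `0 ≤ s`, and `0 < s v` if `¬ G v`
because `kids v` is nonempty and `0 < l c` for children (`c ≠ ⊤`). `r` by well-founded recursion for
`>`: `r c = 0` if `c = ⊤` or `G (par c)`, else
`r c = ((l (par c) + r (par c))⁻¹ + ∑_{c' ∈ (kids (par c)).erase c} (l c' + s c')⁻¹)⁻¹`. If
`¬ G (par c)` then `par c ≠ ⊤` because `G ⊤`, so `0 < l (par c)`, `0 ≤ r (par c)`, and the first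
summand is positive. -/
def ResStmt : Prop := ∀ (V : Type) [Fintype V] [PartialOrder V] [OrderTop V] (T : Tree V)
    (G : V → Prop) (l : V → ℝ), (∀ c, c ≠ ⊤ → 0 < l c) → G ⊤ →
    (∀ v, ¬ G v → (T.kids v).Nonempty) → ∃ s r : V → ℝ, Res T G l s r

/-- FPL (60 lines). Parallel combination. PROOF. Put `S = ∑_k (ρ k)⁻¹ > 0`,
`w k = S⁻¹ (ρ k)⁻¹`. `MM` is linear. For `c ≠ ⊤` at most one `MM (X k) c` is nonzero, so
`(∑_k w_k M_k)² = ∑_k w_k² M_k²`. Hence `Q(∑ w_k X_k) = ∑ w_k² Q(X_k) ≤ ∑ w_k² ρ_k = S⁻² S = S⁻¹`. -/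
def FplStmt : Prop := ∀ (V : Type) [Fintype V] [PartialOrder V] [OrderTop V] (l : V → ℝ),
    (∀ c, c ≠ ⊤ → 0 ≤ l c) → ∀ (K : Type) [Fintype K] [Nonempty K] (X : K → V → ℝ) (ρ : K → ℝ),
    (∀ k, 0 < ρ k) → (∀ k, QQ l (X k) ≤ ρ k) →
    (∀ k k', k ≠ k' → ∀ c, c ≠ ⊤ → MM (X k) c = 0 ∨ MM (X k') c = 0) →
    QQ l (fun j => ∑ k, ((∑ k', (ρ k')⁻¹)⁻¹ * (ρ k)⁻¹) * X k j) ≤ (∑ k, (ρ k)⁻¹)⁻¹

/-- FDN (STRONG, 150 lines; uses FPL). Downward distributions.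
PROOF by induction on `v` for `<`. If `G v` take `D = dl v` (`Q(0) = 0 = s v`). If `¬ G v`: for every
child `c` let `D_c` be given by induction and `X_c = D_c - dl v = (D_c - dl c) + (dl c - dl v)`.
(i) `MM (dl c - dl v) c' = [c ≤ c'] - [v ≤ c'] = [c' = c]` (if `c < c'` then `v = par c ≤ c'`; if
`v ≤ c'` then `c ≤ c'`). (ii) `MM (D_c - dl c) c = 1 - 1 = 0`. So
`Q(X_c) = Q(D_c - dl c) + l c ≤ s c + l c`. (iii) `MM X_c c' ≠ 0` implies `c' ≤ c`: if `c < c'` the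
whole mass of `D_c` and the unit mass at `v` are below `c'`, `1 - 1 = 0`; if `c'` is not comparable
with `c`, nothing is below both (`Tree.comparable`) and `v ≤ c'` would give `c < c'`. By (iii) and
`Tree.kids_disj` the family satisfies the hypothesis of FPL with `K = {c // c ∈ kids v}` (nonempty
because `(s v)⁻¹ = ∑ ... > 0`), `ρ c = s c + l c > 0`. `D = ∑ w_c D_c`, `w_c` the weights of FPL,
`∑ w_c = 1`, so `D - dl v = ∑ w_c X_c`, `Q ≤ (∑ ρ_c⁻¹)⁻¹ = s v`. (`0 ≤ s c` everywhere: `s_grd`,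
`s_pos`.) -/
def FdnStmt : Prop := ∀ (V : Type) [Fintype V] [PartialOrder V] [OrderTop V] (T : Tree V)
    (G : V → Prop) (l s r : V → ℝ), (∀ c, c ≠ ⊤ → 0 < l c) → Res T G l s r →
    ∀ v, ∃ D : V → ℝ, (∀ j, 0 ≤ D j) ∧ (∀ j, D j ≠ 0 → G j ∧ j ≤ v) ∧ ∑ j, D j = 1 ∧
      QQ l (fun j => D j - dl v j) ≤ s v

/-- FUP (STRONG, 200 lines; uses FPL, FDN). Upward distributions.
PROOF by induction on `c` for `>`. Let `u = par c`. If `G u` take `D = dl u` (`u ≤ c` is false,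
`Q(0) = 0 = r c`). If `¬ G u`, then `u ≠ ⊤` (`G ⊤`) and the induction hypothesis for `u` gives `D_u`
without mass below `u` and `Q(D_u - dl (par u)) ≤ r u`. Put
`X_none = D_u - dl u = (D_u - dl (par u)) + (dl (par u) - dl u)`:
`MM (dl (par u) - dl u) c' = -[c' = u]` and `MM (D_u - dl (par u)) u = 0`, so
`Q(X_none) ≤ r u + l u`; moreover `MM X_none c' = 0` for `c' < u`. For a child `d ≠ c` of `u` take
`X_d = D_d - dl u` as in FDN: `Q(X_d) ≤ s d + l d`, `MM X_d c' ≠ 0` only for `c' ≤ d` (`< u`). FPL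
with `K = Option {d // d ∈ (kids u).erase c}`, `ρ none = l u + r u`, `ρ d = l d + s d`:
`D = ∑ w_k D_k`, `D - dl u = ∑ w_k X_k`, `Q ≤ (∑ ρ_k⁻¹)⁻¹ = r c`. No mass below `c`: `D_u` has none
below `u > c`, and `j ≤ d`, `j ≤ c` contradicts `Tree.kids_disj`. -/
def FupStmt : Prop := ∀ (V : Type) [Fintype V] [PartialOrder V] [OrderTop V] (T : Tree V)
    (G : V → Prop) (l s r : V → ℝ), (∀ c, c ≠ ⊤ → 0 < l c) → G ⊤ → Res T G l s r →
    ∀ c, c ≠ ⊤ → ∃ D : V → ℝ, (∀ j, 0 ≤ D j) ∧ (∀ j, D j ≠ 0 → G j ∧ ¬ j ≤ c) ∧ ∑ j, D j = 1 ∧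
      QQ l (fun j => D j - dl (T.par c) j) ≤ r c

/-- FLO (100 lines; uses FPL, FDN, FUP). Unit flow from `v` to the grounded nodes with energy
`≤ h v`. PROOF. If `G v`: `D = dl v`, `h v = 0` because `s v = 0`. If `¬ G v` (so `v ≠ ⊤`): FPL with
`K = Option {c // c ∈ kids v}`, `X_none = D_v^up - dl v` (`Q ≤ r v + l v`, `MM = 0` strictly below
`v`; exactly as in FUP), `X_c = D_c^down - dl v` (`Q ≤ s c + l c`, `MM` nonzero only below `c`):
`(∑ ρ⁻¹)⁻¹ = ((l v + r v)⁻¹ + (s v)⁻¹)⁻¹ = s v (l v + r v) / (s v + l v + r v)`. -/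
def FloStmt : Prop := ∀ (V : Type) [Fintype V] [PartialOrder V] [OrderTop V] (T : Tree V)
    (G : V → Prop) (l s r : V → ℝ), (∀ c, c ≠ ⊤ → 0 < l c) → G ⊤ → Res T G l s r →
    ∀ v, ∃ D : V → ℝ, (∀ j, 0 ≤ D j) ∧ (∀ j, D j ≠ 0 → G j) ∧ ∑ j, D j = 1 ∧
      QQ l (fun j => D j - dl v j) ≤ hh l s r v

/-- SBP (25 lines). Summation by parts. PROOF. `∑_v h v ∑_{c ∈ kids v} f c =
∑_{c ≠ ⊤} h (par c) f c` (`Finset.sum_comm'` or `Finset.sum_fiberwise`); separate `v = ⊤` in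
`∑_v h v f v`. -/
def SbpStmt : Prop := ∀ (V : Type) [Fintype V] [PartialOrder V] [OrderTop V] (T : Tree V)
    (f h : V → ℝ), ∑ v, h v * (f v - ∑ c ∈ T.kids v, f c) =
      h ⊤ * f ⊤ + ∑ c with c ≠ ⊤, f c * (h c - h (T.par c))

/-- HED (60 lines). Values of `h` at the upper end of an edge. PROOF. Let `u = par c`. If `G u`:
`s u = 0` so `h u = 0`, and `r c = 0`. If `¬ G u`: `u ≠ ⊤`, all of `s u`, `r c`, `l u + r u`,
`l c + s c` are positive and `(s u)⁻¹ + (l u + r u)⁻¹ = (l c + s c)⁻¹ + (r c)⁻¹` (split the sum over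
`kids u` into `c` and the rest), i.e. `h u⁻¹ = (l c + s c)⁻¹ + (r c)⁻¹`. The second claim is
`s (l + r) - r (s + l) = l (s - r)`. (`L > 0` because `l c > 0`, `0 ≤ s c`, `0 ≤ r c`.) -/
def HedStmt : Prop := ∀ (V : Type) [Fintype V] [PartialOrder V] [OrderTop V] (T : Tree V)
    (G : V → Prop) (l s r : V → ℝ), (∀ c, c ≠ ⊤ → 0 < l c) → G ⊤ → Res T G l s r →
    ∀ c, c ≠ ⊤ → hh l s r (T.par c) = r c * (s c + l c) / (s c + l c + r c) ∧
      DD l s r c = hh l s r c - hh l s r (T.par c)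

/-- IDJ (STRONG, 120 lines; uses HED, SBP or a double sum as in SBP). PROOF. For `c ≠ ⊤`
`l - J = 2 h(c) (l + r - s)/L + 2 h(par c) (l + s - r)/L` (HED and `field_simp; ring`: both sides are
`(l L² - l (3 (s - r)² + l²))/L²`), and `(l + r - s)/L = 1 - 2 h(c)/(l + r)` (true also if `s = 0`),
`h(par c) (l + s - r)/L = h(par c) (1 - 2 h(par c)/(l + s))`. Sum over `c ≠ ⊤`, collecting the terms
at the node `v` (the edge `v` itself if `v ≠ ⊤`, and the edges `c ∈ kids v`):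
`∑_{c ≠ ⊤} (l - J) = 2 ∑_v h v [ (1 - 2 h v (l v + r v)⁻¹) + ∑_{c ∈ kids v} (1 - 2 h v (l c + s c)⁻¹) ]`
(terms with `G v`, in particular `v = ⊤`, vanish because `h v = 0`). For `¬ G v` the bracket is
`1 + #kids - 2 h v ((l v + r v)⁻¹ + (s v)⁻¹) = #kids - 1`. -/
def IdjStmt : Prop := ∀ (V : Type) [Fintype V] [PartialOrder V] [OrderTop V] (T : Tree V)
    (G : V → Prop) (l s r : V → ℝ), (∀ c, c ≠ ⊤ → 0 < l c) → G ⊤ → Res T G l s r →
    ∑ c with c ≠ ⊤, (l c - JJ l s r c) =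
      2 * ∑ v with ¬ G v, (((T.kids v).card : ℝ) - 1) * hh l s r v

/-- LG2 (STRONG, 120 lines). Legs of clusters with two roots.
PROOF. `A = {c ≠ ⊤ : a c = 2}`, `L c = s c + l c + r c`, `Gf L t = t (2 t / L - 3/2)²` (`≥ 0` for
`t ≥ 0`, `L > 0`). Identity: `J c - (3/4) l c = Gf (L c) (s c + l c) - Gf (L c) (s c)` (`field_simp`,
`ring`; `Gf L t = 4 t³/L² - 6 t²/L + 9 t/4`, `s - r = 2 s + l - L`). If `G c` then `s c = 0` and the
last term is `0`. If `¬ G c`: by `Lab.sum_eq`, `Lab.kids_even`, `Lab.a_pos` there is exactly one child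
`d` and `a d = 2` (the children have even positive numbers of roots with sum 2), so
`s c = s d + l d` (`Res.s_eq`), `r d = l c + r c` (`Res.r_eq`, the sum over the other children is
empty), `L d = L c` and `Gf (L c) (s c) = Gf (L d) (s d + l d)`. Hence
`∑_A (J - (3/4) l) = ∑_{c ∈ A} Gf (L c) (s c + l c) - ∑_{c ∈ A, ¬ G c} Gf (L d) (s d + l d)` with
`d = d(c) ∈ A`, and `c ↦ d(c)` is injective (`par (d c) = c`), so the second sum is a partial sum of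
the first one (all terms `≥ 0`). -/
def Lg2Stmt : Prop := ∀ (g : ℕ), 2 ≤ g → ∀ (V : Type) [Fintype V] [PartialOrder V] [OrderTop V]
    (T : Tree V) (G : V → Prop) (a b : V → ℕ) (l s r : V → ℝ), (∀ c, c ≠ ⊤ → 0 < l c) →
    Lab g T G a b → Res T G l s r →
    3 / 4 * ∑ c with c ≠ ⊤ ∧ a c = 2, l c ≤ ∑ c with c ≠ ⊤ ∧ a c = 2, JJ l s r c

/-- LGN (STRONG, 120 lines). The same for clusters with `2 g` roots, with `r` in place of `s`.
PROOF. `A = {c ≠ ⊤ : a c = 2 g}`. `J c - (3/4) l c = Gf (L c) (r c + l c) - Gf (L c) (r c)` (`J` is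
symmetric in `s`, `r`). Let `u = par c`. If `G u` then `r c = 0`. If `¬ G u`: `u ≠ ⊤`, `a u` is even
and `2 g = a c ≤ a u ≤ 2 g + 1` (`Lab.sum_eq`), so `a u = 2 g`, `u ∈ A`, and `c` is the only child of
`u` (`∑_{kids} a = a u`, all `a ≥ 1`). So `r c = l u + r u`, `s u = s c + l c`, `L u = L c`,
`Gf (L c) (r c) = Gf (L u) (r u + l u)`. `c ↦ par c` is injective on these `c` (only child). Finish
as in LG2. -/
def LgnStmt : Prop := ∀ (g : ℕ), 2 ≤ g → ∀ (V : Type) [Fintype V] [PartialOrder V] [OrderTop V]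
    (T : Tree V) (G : V → Prop) (a b : V → ℕ) (l s r : V → ℝ), (∀ c, c ≠ ⊤ → 0 < l c) →
    Lab g T G a b → Res T G l s r →
    3 / 4 * ∑ c with c ≠ ⊤ ∧ a c = 2 * g, l c ≤ ∑ c with c ≠ ⊤ ∧ a c = 2 * g, JJ l s r c

/-- `0` for odd `a`, `1/4` for `a = 2, 2 g`, `1` for the other even `a`. -/
noncomputable def ee (g a : ℕ) : ℝ := if Odd a then 0 else if a = 2 ∨ a = 2 * g then 1 / 4 else 1

/-- HBD (60 lines; uses LG2, LGN). PROOF. Split the edges `c ≠ ⊤` into `a c` odd, `a c = 2`,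
`a c = 2 g` (`≠ 2` because `g ≥ 2`), other even ones. Odd: `c` and `par c` are grounded
(`Lab.even`, `Lab.kids_even`), `s c = r c = 0`, `J c = l c`. `a c = 2`: LG2; `a c = 2 g`: LGN; other:
`J c ≥ 0`. -/
def HbdStmt : Prop := ∀ (g : ℕ), 2 ≤ g → ∀ (V : Type) [Fintype V] [PartialOrder V] [OrderTop V]
    (T : Tree V) (G : V → Prop) (a b : V → ℕ) (l s r : V → ℝ), (∀ c, c ≠ ⊤ → 0 < l c) →
    Lab g T G a b → Res T G l s r →
    ∑ c with c ≠ ⊤, (l c - JJ l s r c) ≤ ∑ c with c ≠ ⊤, ee g (a c) * l c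

/-- QED (60 lines, pure algebra). Completing the square on one edge, `α = a/(2g+2)`,
`τ = α - b/(4g+8)`.
PROOF. Identity `w1 g a b = (4g+8) (Bc τ² - k (1-2α) τ + (k-(g+1)) α (1-α))` (`field_simp; ring`;
`γ = 2 (3g - k)`, `γ (4g+7)/2 = 2g²+1`). With `m = 4g+8`, `A = 3g`:
`l w1 + A m τ D = m [Bc l τ² - (k(1-2α) l - A D) τ + (k-(g+1)) α(1-α) l]
 ≥ m [(k-(g+1)) α(1-α) l - (k(1-2α) l - A D)²/(4 Bc l)]` (`Bc > 0`, `l > 0`) and
`(k(1-2α) l - A D)²/l = k²(1-2α)² l - 2kA(1-2α) D + A² D²/l`, `D²/l ≤ J/3`. -/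
def QedStmt : Prop := ∀ (g : ℕ), 2 ≤ g → ∀ (a b : ℕ) (l D J : ℝ), 0 < l → D ^ 2 ≤ l * J / 3 →
    (4 * (g : ℝ) + 8) * ((kc g - (g + 1)) * ((a : ℝ) / (2 * g + 2) * (1 - a / (2 * g + 2))) * l -
      (kc g ^ 2 * (1 - 2 * ((a : ℝ) / (2 * g + 2))) ^ 2 * l
        - 2 * kc g * (3 * g) * (1 - 2 * ((a : ℝ) / (2 * g + 2))) * D + (3 * (g : ℝ)) ^ 2 * J / 3) /
        (4 * Bc g)) ≤
    l * w1 g a b + 3 * g * (4 * g + 8) * ((a : ℝ) / (2 * g + 2) - b / (4 * g + 8)) * D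

/-- NME (STRONG arithmetic, 80 lines). The numerical inequality for even clusters.
PROOF. With `n = 2g+2`, `x = 1 - 2a/n`, `α(1-α) = (1-x²)/4`; the claim is
`4 Bc (k-(g+1)) (1-x²)/4 > k² x² + A²/3 + (kA - A²/3) ee`. For fixed `ee` the difference decreases in
`x²`, so it is enough to treat `a = 2` (`x² = (2g-2)²/(2g+2)²`, `ee = 1/4`; the same for `a = 2g`) and,
for `4 ≤ a ≤ 2g-2` (so `g ≥ 3`; `x² ≤ (2g-6)²/(2g+2)²`), `ee = 1`. Both are polynomial inequalities in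
`g` after multiplication by `(4g+7)² (g+1)²` (put `g = t + 2`, resp. `g = t + 3`: all coefficients
positive; at `g = 2`: `20.48 > 20.34`). `ε(g)` = minimum of the finitely many differences over `a`
(finitely many `a ≤ 2g`), or an explicit one. -/
def NmeStmt : Prop := ∀ (g : ℕ), 2 ≤ g → ∃ ε : ℝ, 0 < ε ∧ ∀ a : ℕ, 2 ≤ a → a ≤ 2 * g → Even a →
    ε ≤ (kc g - (g + 1)) * ((a : ℝ) / (2 * g + 2) * (1 - a / (2 * g + 2))) -
      (kc g ^ 2 * (1 - 2 * ((a : ℝ) / (2 * g + 2))) ^ 2 + (3 * (g : ℝ)) ^ 2 / 3 +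
        (kc g * (3 * g) - (3 * (g : ℝ)) ^ 2 / 3) * ee g a) / (4 * Bc g)

/-- NMO (60 lines, arithmetic). The weight of odd clusters is positive. PROOF. `a = 1`:
`w1 g 1 b = (g - 1) b + γ b(b-1)/2 ≥ g - 1 > 0` (`b ≥ 1` because `2 ≤ a + b`). `a = 2g+1`: by the
identity of QED (symmetric under `a → 2g+2-a`, `b → 4g+8-b`) `w1 g (2g+1) b = w1 g 1 (4g+8-b)` with
`4g+8-b ≥ 1`. `3 ≤ a ≤ 2g-1`: by the same identity
`w1/(4g+8) ≥ (k-(g+1)) α(1-α) - k²(1-2α)²/(4 Bc)` for every `b`; with `X = α(1-α)`,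
`(1-2α)² = 1-4X`, it is increasing in `X ≥ 3(2g-1)/(2g+2)²`, and
`4 Bc (k-(g+1)) X > k² (1-4X)` there (polynomial inequality in `g ≥ 2`). -/
def NmoStmt : Prop := ∀ (g : ℕ), 2 ≤ g → ∃ ε : ℝ, 0 < ε ∧ ∀ a b : ℕ, Odd a → a ≤ 2 * g + 1 →
    b ≤ 4 * g + 8 → 2 ≤ a + b → (a = 2 * g + 1 → b < 4 * g + 8) → ε ≤ w1 g a b

/-- TRF (STRONG, 200 lines; uses RES, FLO, SBP, HED, IDJ, HBD, QED, NME, NMO). The inequality for
labelled rooted trees. PROOF. `m = 4g+8`, `n = 2g+2`, `A = 3g`, `τ_c = a_c/n - b_c/m`. RES (children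
exist for `¬ G v` by `Lab.sum_eq`, `Lab.a_pos`) gives `s`, `r`, FLO gives `D v`. For the left hand
side: `ρ_v = b v - ∑_{kids} b ≥ 0` and `∑_v ρ_v h v = ∑_v h v (f v - ∑_{kids} f)` with
`f = b - (m/n) a = - m τ` (`a v = ∑_{kids} a` if `h v ≠ 0`), `= - m ∑_{c ≠ ⊤} τ_c DD c` (SBP, HED,
`h ⊤ = 0`). So it is enough to show
`ε ∑ l ≤ ∑_{c ≠ ⊤} (l w1 + A m τ_c DD c)`. Odd `a_c`: `s = r = 0`, `DD = 0`, `J = l`, `w1 ≥ ε₁` (NMO).
Even `a_c`: QED with `D = DD c`, `J = JJ c` (`DD² ≤ l J / 3` because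
`(s-r)² l² / L² ≤ l · l (3(s-r)² + l²)/(3 L²)`). Sum, and use for the sums over even edges
`-∑ (1-2α) DD = ∑_{¬ G v} (#kids - 1) h v = (1/2) ∑ (l - J)` (SBP with `f = 1 - 2a/n`, HED, IDJ;
odd edges contribute `0`), `∑_{even} J = ∑_{even} l - ∑ (l - J)`, `∑ (l - J) ≤ ∑ ee l` (HBD) and
`kA - A²/3 ≥ 0`: the sum over the even edges is at least
`m ∑ l [(k-(g+1)) α(1-α) - (k²(1-2α)² + A²/3 + (kA - A²/3) ee)/(4 Bc)] ≥ m ε₂ ∑ l` (NME). -/
def TrfStmt : Prop := ∀ (g : ℕ), 2 ≤ g → ∃ ε : ℝ, 0 < ε ∧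
    ∀ (V : Type) [Fintype V] [PartialOrder V] [OrderTop V]
    (T : Tree V) (G : V → Prop) (a b : V → ℕ) (l : V → ℝ), (∀ c, c ≠ ⊤ → 0 < l c) →
    Lab g T G a b → ∃ D : V → V → ℝ, (∀ v j, 0 ≤ D v j) ∧ (∀ v j, D v j ≠ 0 → G j) ∧
      (∀ v, ∑ j, D v j = 1) ∧
      ε * ∑ c with c ≠ ⊤, l c +
        3 * g * ∑ v, ((b v : ℝ) - ∑ c ∈ T.kids v, (b c : ℝ)) * QQ l (fun j => D v j - dl v j) ≤
        ∑ c with c ≠ ⊤, l c * w1 g (a c) (b c)

/-! ## From laminar families to trees -/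

/-- LPA (30 lines). Parents in a laminar family. PROOF. `{d ∈ V : c ⊂ d}` contains `univ`; take `d` of
minimal cardinality. For `d' ∈ V`, `c ⊂ d'`: `d`, `d'` both contain the nonempty `c`, so they are
nested; if not `d ⊆ d'` then `d' ⊂ d` has smaller cardinality. -/
def LpaStmt : Prop := ∀ (P : Type) [Fintype P] [DecidableEq P] (Λ : Lam P), ∀ c ∈ Λ.V,
    c ≠ Finset.univ → ∃ d ∈ Λ.V, c ⊂ d ∧ ∀ d' ∈ Λ.V, c ⊂ d' → d ⊆ d'

/-- LKS (50 lines). Children are disjoint. PROOF. Two different children `s`, `s'` of `c` are disjoint: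
otherwise they are nested, say `s ⊂ s'`, then `c ⊆ s' ⊂ c`. So `∑ #(s ∩ A)` is the cardinality of the
disjoint union of the `s ∩ A`, a subset of `c ∩ A`, equal to it in the second case. -/
def LksStmt : Prop := ∀ (P : Type) [Fintype P] [DecidableEq P] (Λ : Lam P) (A : Finset P),
    ∀ c ∈ Λ.V, ∑ s ∈ Λ.V with Λ.Kid c s, (s ∩ A).card ≤ (c ∩ A).card ∧
      ((∀ p ∈ c ∩ A, ∃ s, Λ.Kid c s ∧ p ∈ s) →
        ∑ s ∈ Λ.V with Λ.Kid c s, (s ∩ A).card = (c ∩ A).card)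

/-- LGU (40 lines; uses LKS). Clusters which are not grounded. PROOF. Let `p ∈ c ∩ R`. As the first
alternative of `Grd` fails there is `d ∈ V` with `p ∈ d` and not `c ⊆ d`, so `d ⊂ c` (nested, both
contain `p`). Among these `d` take `s` of maximal cardinality: if `s ⊂ d' ∈ V` then `d'` and `c` are
nested (`p`), and `d' ⊂ c` is impossible by maximality, so `c ⊆ d'`: `Kid c s`. The numbers
`#(s ∩ R)` of the children are even because the second alternative fails; the sum is `#(c ∩ R)` by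
LKS, hence even. -/
def LguStmt : Prop := ∀ (P : Type) [Fintype P] [DecidableEq P] (Λ : Lam P) (R : Finset P),
    ∀ c ∈ Λ.V, ¬ Λ.Grd R c → (∀ p ∈ c ∩ R, ∃ s, Λ.Kid c s ∧ p ∈ s) ∧
      (∀ s, Λ.Kid c s → Even (s ∩ R).card) ∧ Even (c ∩ R).card

/-- LFT (80 lines; uses LKS). Feet. PROOF. (i) The clusters `d ∋ x` with `(d ∩ R).Nonempty` (`univ` is
one) are pairwise nested, take one of minimal cardinality; it is unique. (ii) Count the points
`x ∉ R`, `x ∈ u` by whether they lie in a child of `u` meeting `R`: if `x` is in no such child then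
`foot x = u` (if `foot x ⊂ u`, the child of `u` containing `foot x` meets `R`; it exists as in LGU),
and if `x` is in a child `s` meeting `R` then `foot x ⊆ s ⊂ u`. So
`#{x ∉ R : foot x = u} = #(u \ R) - ∑_{s child of u, s ∩ R ≠ ∅} #(s \ R)`. -/
def LftStmt : Prop := ∀ (P : Type) [Fintype P] [DecidableEq P] (Λ : Lam P) (R : Finset P),
    R.Nonempty → ∃ foot : P → Finset P,
      (∀ x, foot x ∈ Λ.V ∧ (foot x ∩ R).Nonempty ∧ x ∈ foot x ∧
        ∀ d ∈ Λ.V, (d ∩ R).Nonempty → x ∈ d → foot x ⊆ d) ∧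
      ∀ u ∈ Λ.V, (u ∩ R).Nonempty →
        (((Finset.univ.filter fun x => x ∉ R ∧ foot x = u).card : ℕ) : ℝ) =
          ((u \ R).card : ℝ) - ∑ s ∈ Λ.V with Λ.Kid u s ∧ (s ∩ R).Nonempty, ((s \ R).card : ℝ)

/-- ENL (40 lines). Energy as a sum over clusters. PROOF. For `c, d ∈ V`:
`lev (c ∪ d) = ∑_{e ∈ V} l e [c ⊆ e][d ⊆ e]`, `lev (insert x c) = ∑_e l e [x ∈ e][c ⊆ e]`. Exchange the
sums; `M_e = ∑_{c ∈ V, c ⊆ e} μ c`, `∑_{c,d} μ c μ d [c ⊆ e][d ⊆ e] = M_e²`,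
`∑_{c,d} μ c μ d [x ∈ e][c ⊆ e] = [x ∈ e] M_e` because `∑ μ = 1`. -/
def EnlStmt : Prop := ∀ (P : Type) [Fintype P] [DecidableEq P] (Λ : Lam P) (μ : Finset P → ℝ)
    (x : P), ∑ c ∈ Λ.V, μ c = 1 → Λ.En μ x = ∑ e ∈ Λ.V, Λ.l e *
      ((∑ c ∈ Λ.V with c ⊆ e, μ c) ^ 2 - 2 * (if x ∈ e then 1 else 0) * ∑ c ∈ Λ.V with c ⊆ e, μ c)

/-- TRE (STRONG, 300 lines; uses TRF, LPA, LKS, LGU, LFT, ENL). The tree inequality for laminar
families. PROOF. Tree: `V' = {d // d ∈ Λ.V ∧ (d ∩ R).Nonempty}` with inclusion, `⊤ = univ`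
(`R.card = 2g+1 > 0`), parents by LPA (supersets of members of `V'` are in `V'`);
`kids u ↔ {s : Kid u s ∧ (s ∩ R).Nonempty}`. Labels `a d = #(d ∩ R)`, `b d = #(d \ R)`,
`G d = Λ.Grd R d`. `Lab`: `a ≤ 2g+1`, `b ≤ #Rᶜ = 4g+8`, `a + b = #d ≥ 2`, `a = 2g+1` and
`b = 4g+8` only for `univ`; `a_kids`, `b_kids` by LKS (`A = R`, `A = Rᶜ`); `G univ`, `even`, `sum_eq`,
`kids_even` by LGU and LKS (`#R` is odd, so `univ` is grounded; children not meeting `R` contribute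
`0`). TRF gives `D`; `μ x c = D (foot x) c` for `c ∈ V'`, `0` for the other `c`. By ENL with
`M_{x,e} = ∑_{c ⊆ e} μ x c` and `t = [x ∈ e]`, `t² = t`:
`M² - 2 t M = (M - t)² - t`, so
`∑_{x ∉ R} En (μ x) x = ∑_x ∑_e l e (M_{x,e} - [x ∈ e])² - ∑_e l e b_e`. In the first sum: `e = univ`
gives `(1 - 1)² = 0`; `e` without roots gives `M = 0` and in total `l e b_e`, which cancels; for
`e ∈ V'`, `e ≠ univ`: `x ∈ e ↔ foot x ⊆ e`, so the sum is
`∑_{u ∈ V'} #{x : foot x = u} QQ (D u - dl u)` (LFT). Hence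
`3g ∑_x En = 3g ∑_u ρ_u QQ(D u - dl u) - 3g ∑_{e ∈ V'} l e b_e`. For `univ`:
`w0 g (2g+1) (4g+8) + 3g (4g+8) = 0`. For `e` without roots `w0 g 0 b = γ b(b-1)/2 ≥ γ > 0`
(`b = #e ≥ 2`). So the claim follows from TRF with `min ε γ`. -/
def TreStmt : Prop := ∀ (g : ℕ), 2 ≤ g → ∃ ε : ℝ, 0 < ε ∧ ∀ (P : Type) [Fintype P] [DecidableEq P]
    (R : Finset P), R.card = 2 * g + 1 → Fintype.card P = 2 * g + 1 + (4 * g + 8) →
    ∀ Λ : Lam P, ∃ μ : P → Finset P → ℝ, (∀ x, x ∉ R → Λ.Prob R (μ x)) ∧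
      ε * Λ.len + 3 * g * ∑ x ∈ Rᶜ, Λ.En (μ x) x ≤
        ∑ d ∈ Λ.V, Λ.l d * w0 g (d ∩ R).card (d \ R).card

end Pool.Agent.MNT
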